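import Pool.Agent.H75.GG.Targets2

/-!
# Row AD2: the number of choices which can be reconstructed
-/

set_option autoImplicit false

namespace Pool.Agent.H17.GG

open Finset Filter Pool.Agent.H6.NB Pool.Agent.H70.OQ Pool.Agent.H75.GS Pool.Agent.H75.GG

open Classical in
theorem ad2_det {r : ℕ} {X : Fin r → Type} {Z : Type} [∀ k, Fintype (X k)] [Fintype Z]
    (a : ∀ j, X j → Prop) (θ : ℝ)
    (h3 : ∀ j x x', a j x → a j x' → x = x')
    (h4 : ∀ j, 1 ≤ θ * Fintype.card (X j)) (F : Finset (Fin r)) (y : ∀ k, X k × Z) :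
    ((univ.filter fun y2 : ∀ k, X k × Z => (∀ k ∈ F, y2 k = y k) ∧
      ∀ j ∉ F, a j (y2 j).1).card : ℝ) ≤
      θ ^ (Fᶜ).card * ∏ j ∈ Fᶜ, ((Fintype.card (X j) : ℝ) * Fintype.card Z) := by
  have h : (univ.filter fun y2 : ∀ k, X k × Z => (∀ k ∈ F, y2 k = y k) ∧
      ∀ j ∉ F, a j (y2 j).1).card ≤ (univ : Finset (↥(Fᶜ) → Z)).card := by
    refine Finset.card_le_card_of_injOn (fun y2 j => (y2 j.1).2) (fun _ _ => by simp) ?_
    intro u hu v hv huv
    rw [mem_coe, mem_filter] at hu hv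
    funext k
    by_cases hk : k ∈ F
    · rw [hu.2.1 k hk, hv.2.1 k hk]
    · have e1 : (u k).1 = (v k).1 := h3 k _ _ (hu.2.2 k hk) (hv.2.2 k hk)
      have e2 : (u k).2 = (v k).2 := congrFun huv ⟨k, by rw [mem_compl]; exact hk⟩
      exact Prod.ext e1 e2
  rw [card_univ, Fintype.card_fun, Fintype.card_coe] at h
  have h' : ((univ.filter fun y2 : ∀ k, X k × Z => (∀ k ∈ F, y2 k = y k) ∧
      ∀ j ∉ F, a j (y2 j).1).card : ℝ) ≤ (Fintype.card Z : ℝ) ^ (Fᶜ).card := by
    exact_mod_cast h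
  refine h'.trans ?_
  rw [← prod_const, ← prod_const, ← prod_mul_distrib]
  refine prod_le_prod (fun _ _ => Nat.cast_nonneg _) fun j _ => ?_
  have hz : (0 : ℝ) ≤ Fintype.card Z := Nat.cast_nonneg _
  nlinarith [mul_le_mul_of_nonneg_right (h4 j) hz]

open Classical in
theorem ad2_aux {r : ℕ} {X : Fin r → Type} {Z : Type} [∀ k, Fintype (X k)] [Fintype Z]
    (Hv : Finset (Fin r) → (∀ k, X k × Z) → ∀ j, Finset (X j × Z))
    (ac : Finset (Fin r) → (∀ k, X k × Z) → ∀ j, X j → Prop) (θ : ℝ)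
    (h1 : ∀ F y y', (∀ k ∈ F, y k = y' k) → Hv F y = Hv F y' ∧ ac F y = ac F y')
    (h2 : ∀ F y, ∑ j, ((Hv F y j).card : ℝ) /
      ((Fintype.card (X j) : ℝ) * Fintype.card Z) ≤ θ)
    (h3 : ∀ F y j x x', ac F y j x → ac F y j x' → x = x')
    (h4 : ∀ j, 1 ≤ θ * Fintype.card (X j)) (h5 : 0 < Fintype.card Z)
    (P : (∀ k, X k × Z) → Prop)
    (hP : ∀ y, P y → ∀ F ≠ univ, (∃ j ∉ F, y j ∈ Hv F y j) ∨ ∀ j ∉ F, ac F y j (y j).1) :
    ∀ (m : ℕ) (F : Finset (Fin r)) (y : ∀ k, X k × Z), (Fᶜ).card = m →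
      ((univ.filter fun y2 : ∀ k, X k × Z => (∀ k ∈ F, y2 k = y k) ∧ P y2).card : ℝ) ≤
        (m + 1) * θ ^ m * ∏ j ∈ Fᶜ, ((Fintype.card (X j) : ℝ) * Fintype.card Z) := by
  intro m
  induction m with
  | zero =>
    intro F y hF
    have hF' : F = univ := by
      rw [Finset.card_eq_zero] at hF
      exact (Finset.compl_eq_empty_iff F).1 hF
    subst hF'
    have h : (univ.filter fun y2 : ∀ k, X k × Z =>
        (∀ k ∈ (univ : Finset (Fin r)), y2 k = y k) ∧ P y2).card ≤ 1 := by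
      refine Finset.card_le_one.2 ?_
      intro a ha b hb
      rw [mem_filter] at ha hb
      funext k
      rw [ha.2.1 k (mem_univ k), hb.2.1 k (mem_univ k)]
    have h' : ((univ.filter fun y2 : ∀ k, X k × Z =>
        (∀ k ∈ (univ : Finset (Fin r)), y2 k = y k) ∧ P y2).card : ℝ) ≤ 1 := by
      exact_mod_cast h
    rw [compl_univ, prod_empty, pow_zero, Nat.cast_zero, zero_add, mul_one, mul_one]
    exact h'
  | succ m ih =>
    intro F y hF
    have hFu : F ≠ univ := by
      intro h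
      rw [h, compl_univ, card_empty] at hF
      omega
    have hθ : 0 ≤ θ := le_trans (sum_nonneg fun j _ => by positivity) (h2 F y)
    set w : Fin r → ℝ := fun j => (Fintype.card (X j) : ℝ) * Fintype.card Z with hw
    have hw0 : ∀ j, 0 < w j := by
      intro j
      have hx : (0 : ℝ) < Fintype.card (X j) := by
        rcases Nat.eq_zero_or_pos (Fintype.card (X j)) with h0 | h0
        · have := h4 j
          rw [h0, Nat.cast_zero, mul_zero] at this
          linarith
        · exact_mod_cast h0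
      have hz : (0 : ℝ) < Fintype.card Z := by exact_mod_cast h5
      exact mul_pos hx hz
    have hsub : (univ.filter fun y2 : ∀ k, X k × Z => (∀ k ∈ F, y2 k = y k) ∧ P y2) ⊆
        (univ.filter fun y2 : ∀ k, X k × Z => (∀ k ∈ F, y2 k = y k) ∧
          ∀ j ∉ F, ac F y j (y2 j).1) ∪
        (Fᶜ).biUnion fun j => (Hv F y j).biUnion fun v =>
          (univ.filter fun y2 : ∀ k, X k × Z =>
            (∀ k ∈ insert j F, y2 k = Function.update y j v k) ∧ P y2) := by
      intro y2 hy2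
      rw [mem_filter] at hy2
      have hd := h1 F y2 y hy2.2.1
      rw [mem_union]
      rcases hP y2 hy2.2.2 F hFu with ⟨j, hj, hv⟩ | hb
      · right
        rw [mem_biUnion]
        refine ⟨j, by rw [mem_compl]; exact hj, ?_⟩
        rw [mem_biUnion]
        refine ⟨y2 j, by rw [← hd.1]; exact hv, ?_⟩
        rw [mem_filter]
        refine ⟨mem_univ _, ?_, hy2.2.2⟩
        intro k hk
        by_cases hkj : k = j
        · subst hkj
          rw [Function.update_self]
        · rw [Function.update_of_ne hkj]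
          exact hy2.2.1 k ((mem_insert.1 hk).resolve_left hkj)
      · left
        rw [mem_filter]
        refine ⟨mem_univ _, hy2.2.1, ?_⟩
        intro j hj
        rw [← hd.2]
        exact hb j hj
    have hc := (card_le_card hsub).trans (card_union_le _ _)
    have hc2 : (univ.filter fun y2 : ∀ k, X k × Z => (∀ k ∈ F, y2 k = y k) ∧ P y2).card ≤
        (univ.filter fun y2 : ∀ k, X k × Z => (∀ k ∈ F, y2 k = y k) ∧
          ∀ j ∉ F, ac F y j (y2 j).1).card +
        ∑ j ∈ Fᶜ, ∑ v ∈ Hv F y j, (univ.filter fun y2 : ∀ k, X k × Z =>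
            (∀ k ∈ insert j F, y2 k = Function.update y j v k) ∧ P y2).card :=
      hc.trans (Nat.add_le_add_left (card_biUnion_le.trans
        (sum_le_sum fun j _ => card_biUnion_le)) _)
    have hc3 : ((univ.filter fun y2 : ∀ k, X k × Z =>
        (∀ k ∈ F, y2 k = y k) ∧ P y2).card : ℝ) ≤
        ((univ.filter fun y2 : ∀ k, X k × Z => (∀ k ∈ F, y2 k = y k) ∧
          ∀ j ∉ F, ac F y j (y2 j).1).card : ℝ) +
        ∑ j ∈ Fᶜ, ∑ v ∈ Hv F y j, ((univ.filter fun y2 : ∀ k, X k × Z =>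
            (∀ k ∈ insert j F, y2 k = Function.update y j v k) ∧ P y2).card : ℝ) := by
      exact_mod_cast hc2
    have hA := ad2_det (Z := Z) (ac F y) θ (h3 F y) h4 F y
    rw [hF] at hA
    have hB : ∑ j ∈ Fᶜ, ∑ v ∈ Hv F y j, ((univ.filter fun y2 : ∀ k, X k × Z =>
            (∀ k ∈ insert j F, y2 k = Function.update y j v k) ∧ P y2).card : ℝ) ≤
        (m + 1) * θ ^ m * (∏ j ∈ Fᶜ, w j) * θ := by
      have hstep : ∀ j ∈ Fᶜ, ∑ v ∈ Hv F y j, ((univ.filter fun y2 : ∀ k, X k × Z =>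
            (∀ k ∈ insert j F, y2 k = Function.update y j v k) ∧ P y2).card : ℝ) ≤
          (m + 1) * θ ^ m * (∏ i ∈ Fᶜ, w i) * (((Hv F y j).card : ℝ) / w j) := by
        intro j hj
        have hcm : ((insert j F)ᶜ).card = m := by
          rw [compl_insert, card_erase_of_mem hj, hF]
          rfl
        have hpr : ∏ i ∈ (insert j F)ᶜ, w i = (∏ i ∈ Fᶜ, w i) / w j := by
          rw [compl_insert, eq_div_iff (hw0 j).ne', prod_erase_mul _ _ hj]
        calc ∑ v ∈ Hv F y j, ((univ.filter fun y2 : ∀ k, X k × Z =>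
              (∀ k ∈ insert j F, y2 k = Function.update y j v k) ∧ P y2).card : ℝ)
            ≤ ∑ v ∈ Hv F y j, ((m + 1) * θ ^ m * ∏ i ∈ (insert j F)ᶜ, w i) :=
              sum_le_sum fun v _ => ih (insert j F) (Function.update y j v) hcm
          _ = (m + 1) * θ ^ m * (∏ i ∈ Fᶜ, w i) * (((Hv F y j).card : ℝ) / w j) := by
              rw [sum_const, nsmul_eq_mul, hpr]
              ring
      refine (sum_le_sum hstep).trans ?_
      rw [← mul_sum]
      have hp0 : 0 ≤ (m + 1) * θ ^ m * (∏ j ∈ Fᶜ, w j) :=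
        mul_nonneg (by positivity) (prod_nonneg fun j _ => (hw0 j).le)
      refine mul_le_mul_of_nonneg_left ?_ hp0
      refine le_trans ?_ (h2 F y)
      refine sum_le_univ_sum_of_nonneg ?_
      intro j
      exact div_nonneg (Nat.cast_nonneg _) (hw0 j).le
    refine hc3.trans ((add_le_add hA hB).trans (le_of_eq ?_))
    push_cast
    ring

open Classical in
theorem pf_AD2 : T_AD2 := by
  intro r X Z _ _ Hv ac θ h1 h2 h3 h4 h5
  have hne : ∀ k, Nonempty (X k × Z) := by
    intro k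
    have hx : 0 < Fintype.card (X k) := by
      rcases Nat.eq_zero_or_pos (Fintype.card (X k)) with h0 | h0
      · have := h4 k
        rw [h0, Nat.cast_zero, mul_zero] at this
        linarith
      · exact h0
    obtain ⟨x⟩ := Fintype.card_pos_iff.1 hx
    obtain ⟨z⟩ := Fintype.card_pos_iff.1 h5
    exact ⟨(x, z)⟩
  have h := ad2_aux Hv ac θ h1 h2 h3 h4 h5
    (fun y => ∀ F ≠ univ, (∃ j ∉ F, y j ∈ Hv F y j) ∨ ∀ j ∉ F, ac F y j (y j).1)
    (fun _ h => h) r ∅ (fun k => (hne k).some) (by rw [compl_empty, card_univ, Fintype.card_fin])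
  rw [compl_empty] at h
  refine le_trans ?_ h
  have : (univ.filter fun y : ∀ k, X k × Z => ∀ F ≠ univ,
      (∃ j ∉ F, y j ∈ Hv F y j) ∨ ∀ j ∉ F, ac F y j (y j).1).card ≤
    (univ.filter fun y2 : ∀ k, X k × Z =>
      (∀ k ∈ (∅ : Finset (Fin r)), y2 k = (hne k).some) ∧ ∀ F ≠ univ,
      (∃ j ∉ F, y2 j ∈ Hv F y2 j) ∨ ∀ j ∉ F, ac F y2 j (y2 j).1).card := by
    refine card_le_card ?_
    intro y hy
    rw [mem_filter] at hy ⊢
    exact ⟨hy.1, fun k hk => absurd hk (notMem_empty k), hy.2⟩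
  exact_mod_cast this

end Pool.Agent.H17.GG
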