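import Pool.Agent.H75.GG.Targets

set_option autoImplicit false

namespace Pool.Agent.H17.GG

open Finset Filter Pool.Agent.H6.NB Pool.Agent.H70.OQ Pool.Agent.H75.GS Pool.Agent.H75.GG

theorem jR_fibre {X Z : Type} [Fintype X] [DecidableEq X] [Fintype Z] [DecidableEq Z]
    (R : Finset X) (zr : X → Z) (s : Finset ((X → Z) × (X → Bool)))
    (q : (X → Z) × (X → Bool)) :
    (s.filter fun p => jR R zr p = q).card ≤ (2 * Fintype.card Z) ^ R.card := by
  have h1 : (s.filter fun p => jR R zr p = q).card ≤
      (univ : Finset (R → Z × Bool)).card := by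
    apply Finset.card_le_card_of_injOn (fun p => fun r : R => (p.1 r, p.2 r))
    · intro p _
      exact mem_coe.2 (mem_univ _)
    · intro p hp p' hp' h
      have hp1 : jR R zr p = q := (mem_filter.1 (mem_coe.1 hp)).2
      have hp2 : jR R zr p' = q := (mem_filter.1 (mem_coe.1 hp')).2
      have e := hp1.trans hp2.symm
      have e1 : ∀ x, (if x ∈ R then zr x else p.1 x) = if x ∈ R then zr x else p'.1 x :=
        fun x => congrFun (congrArg Prod.fst e) x
      have e2 : ∀ x, (if x ∈ R then true else p.2 x) = if x ∈ R then true else p'.2 x :=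
        fun x => congrFun (congrArg Prod.snd e) x
      apply Prod.ext
      · funext x
        by_cases hx : x ∈ R
        · exact congrArg Prod.fst (congrFun h ⟨x, hx⟩)
        · have := e1 x
          rwa [if_neg hx, if_neg hx] at this
      · funext x
        by_cases hx : x ∈ R
        · exact congrArg Prod.snd (congrFun h ⟨x, hx⟩)
        · have := e2 x
          rwa [if_neg hx, if_neg hx] at this
  refine h1.trans (le_of_eq ?_)
  rw [card_univ, Fintype.card_fun, Fintype.card_prod, Fintype.card_bool, Fintype.card_coe,
    mul_comm]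

theorem pf_BSJ (hBSC : T_BSC) : T_BSJ := by
  intro X Z _ _ _ _ _ S t d w r k k' R zr hw hk hb f hf
  have h := hBSC X Z S t d w r k k' hw hk hb f hf
  have h1 : (univ.filter fun p : (X → Z) × (X → Bool) =>
      k' < (univ.filter fun x => f (tU (jR R zr p) x) ≠ f (tT (jR R zr p))).card).card ≤
      (2 * Fintype.card Z) ^ R.card * (univ.filter fun p : (X → Z) × (X → Bool) =>
        k' < (univ.filter fun x => f (tU p x) ≠ f (tT p)).card).card := by
    apply Finset.card_le_mul_card_image_of_maps_to (f := jR R zr)
    · intro p hp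
      exact mem_filter.2 ⟨mem_univ _, (mem_filter.1 hp).2⟩
    · intro q _
      exact jR_fibre R zr _ q
  have h2 : ((univ.filter fun p : (X → Z) × (X → Bool) =>
      k' < (univ.filter fun x => f (tU (jR R zr p) x) ≠ f (tT (jR R zr p))).card).card : ℝ) ≤
      (2 * Fintype.card Z) ^ R.card * ((univ.filter fun p : (X → Z) × (X → Bool) =>
        k' < (univ.filter fun x => f (tU p x) ≠ f (tT p)).card).card : ℝ) := by
    exact_mod_cast h1
  refine h2.trans ?_
  rw [mul_assoc]
  exact mul_le_mul_of_nonneg_left h (by positivity)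

end Pool.Agent.H17.GG
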