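import Pool.Agent.H75.GG.Targets

set_option autoImplicit false

namespace Pool.Agent.H17.GG

open Finset Filter Pool.Agent.H6.NB Pool.Agent.H70.OQ Pool.Agent.H75.GS Pool.Agent.H75.GG

theorem elG_inl {B Ω : Type} (acc1 : Ω ⊕ Ω → Gn B (Ω ⊕ Ω)) (acc2 : Ω → Gn B Ω) (T : B → Bool)
    (h1 : ∀ s e, acc1 (.inl s) T e = acc2 s T (fun s => e (.inl s)))
    (κ : Ω ⊕ Ω → Bool) (h : ℕ) (s : Ω) :
    elG acc1 T κ h (.inl s) = elG acc2 T (fun s => κ (.inl s)) h s := by
  induction h generalizing s with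
  | zero => rfl
  | succ h ih =>
    show xor (acc1 (.inl s) T (elG acc1 T κ h)) (κ (.inl s)) =
      xor (acc2 s T (elG acc2 T (fun s => κ (.inl s)) h)) (κ (.inl s))
    rw [h1, funext ih]

theorem vl_emb2 {B Ω : Type} {nn qb : Ω → ℕ} (T : B → Bool) (e : Ω ⊕ Ω → Bool)
    (P : Blk (nn2 nn) (qb2 qb)) (Q : Blk nn qb) (hQ : ∀ s, Q s = P (.inl s)) :
    (fun c : PosG B Ω nn qb => vlG T e P (emb2 c)) = vlG T (fun s => e (.inl s)) Q := by
  funext c
  cases c with
  | cst b => rfl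
  | bas a => rfl
  | key s => rfl
  | blk s i v =>
    show P (.inl s) i v = Q s i v
    rw [hQ]

theorem pf_ELT : T_ELT := by
  intro B Ω nn qb D D' h a0 lev P Q T U κ e hQ
  have a1 : ∀ (s : Ω) (T : B → Bool) (e : Ω ⊕ Ω → Bool),
      accG (D2 D D') P (.inl s) T e = accG D Q s T (fun s => e (.inl s)) := by
    intro s T e
    show D s (fun c => vlG T e P (emb2 c)) = D s (vlG T (fun s => e (.inl s)) Q)
    rw [vl_emb2 T e P Q hQ]
  have a2 : ∀ (s : Ω) (T : B → Bool) (e : Ω ⊕ Ω → Bool),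
      accG (Daw (D2 D D') (lev2 lev) a0) P (.inl s) T e =
        accG (Daw D lev a0) Q s T (fun s => e (.inl s)) := by
    intro s T e
    show (!decide (lev s < a0) && D s (fun c => vlG T e P (emb2 c))) =
      (!decide (lev s < a0) && D s (vlG T (fun s => e (.inl s)) Q))
    rw [vl_emb2 T e P Q hQ]
  refine ⟨fun s => elG_inl _ _ T (fun s e => a1 s T e) κ h s, fun s => ?_, fun s => a1 s T e,
    fun s => ?_⟩
  · have h1 := elG_inl (accG (Daw (D2 D D') (lev2 lev) a0) P) (accG (Daw D lev a0) Q) U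
      (fun s e => a2 s U e) (thG (accG (Daw (D2 D D') (lev2 lev) a0) P) T e) h s
    unfold exG
    rw [h1]
    congr 1
    funext s'
    show xor (e (.inl s')) (accG (Daw (D2 D D') (lev2 lev) a0) P (.inl s') T e) =
      xor (e (.inl s')) (accG (Daw D lev a0) Q s' T (fun s => e (.inl s)))
    rw [a2]
  · show D' s (fun c => vlG T e P (emb2 c)) = D' s (vlG T (fun s => e (.inl s)) Q)
    rw [vl_emb2 T e P Q hQ]

end Pool.Agent.H17.GG
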