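import Pool.Agent.H64.GG.TA

/-!
# LED: the leading forms of the products of the generators
-/

set_option autoImplicit false

open NumberField Height Finset Polynomial Pool.Agent.H24.RD Pool.Agent.H23.RDD Pool.Agent.H29.RQ
  Pool.Agent.H29.SX Pool.Agent.H29.LG Pool.Agent.H64.GG

namespace Pool.Agent.H17.GG.LED

variable {K M : Type} [Field K] [Field M] [Algebra K M] {m : ℕ}

theorem jj_eq (P : Fin m → M) (κ : Fin m → ℕ) (F : MvPolynomial (Fin m) K)
    (S : Finset (Fin m →₀ ℕ)) (hS : F.support ⊆ S) : JJ P κ F = ∑ n ∈ S,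
      algebraMap K M (F.coeff n) * ((∏ i, ((n i : ℕ) : M) ^ κ i) * ∏ i, P i ^ n i) := by
  unfold JJ
  refine Finset.sum_subset hS fun n _ hn => ?_
  rw [MvPolynomial.notMem_support_iff.1 hn, map_zero, zero_mul]

theorem jj_add (P : Fin m → M) (κ : Fin m → ℕ) (F G : MvPolynomial (Fin m) K) :
    JJ P κ (F + G) = JJ P κ F + JJ P κ G := by
  classical
  rw [jj_eq P κ (F + G) (F.support ∪ G.support) MvPolynomial.support_add,
    jj_eq P κ F (F.support ∪ G.support) Finset.subset_union_left,
    jj_eq P κ G (F.support ∪ G.support) Finset.subset_union_right, ← Finset.sum_add_distrib]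
  refine Finset.sum_congr rfl fun n _ => ?_
  rw [MvPolynomial.coeff_add, map_add, add_mul]

theorem jj_mon (P : Fin m → M) (κ : Fin m → ℕ) (n : Fin m →₀ ℕ) (c : K) :
    JJ P κ (MvPolynomial.monomial n c) =
      algebraMap K M c * ((∏ i, ((n i : ℕ) : M) ^ κ i) * ∏ i, P i ^ n i) := by
  classical
  rw [jj_eq P κ _ {n} MvPolynomial.support_monomial_subset, Finset.sum_singleton,
    MvPolynomial.coeff_monomial, if_pos rfl]

theorem jj_D (P : Fin m → M) (κ : Fin m →₀ ℕ) (l : Fin m) (F : MvPolynomial (Fin m) K) :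
    JJ P (⇑(κ + Finsupp.single l 1 : Fin m →₀ ℕ)) F =
      JJ P (⇑κ) (MvPolynomial.X l * MvPolynomial.pderiv l F) := by
  classical
  induction F using MvPolynomial.induction_on' with
  | add p q hp hq => rw [map_add, mul_add, jj_add, jj_add, hp, hq]
  | monomial n c =>
    rw [MvPolynomial.X_mul_pderiv_monomial, ← Nat.cast_smul_eq_nsmul K, MvPolynomial.smul_monomial,
      jj_mon, jj_mon, smul_eq_mul, map_mul, map_natCast]
    have h1 : ∏ i, ((n i : ℕ) : M) ^ (κ + Finsupp.single l 1 : Fin m →₀ ℕ) i =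
        (∏ i, ((n i : ℕ) : M) ^ κ i) * (n l : M) := by
      have h2 : ∀ i, ((n i : ℕ) : M) ^ (κ + Finsupp.single l 1 : Fin m →₀ ℕ) i =
          ((n i : ℕ) : M) ^ κ i * (if i = l then ((n i : ℕ) : M) else 1) := by
        intro i
        rw [Finsupp.add_apply, pow_add]
        by_cases h : i = l
        · subst h
          rw [Finsupp.single_eq_same, pow_one, if_pos rfl]
        · rw [Finsupp.single_eq_of_ne h, pow_zero, if_neg h]
      rw [Finset.prod_congr rfl fun i _ => h2 i, Finset.prod_mul_distrib, Finset.prod_ite_eq' _ l,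
        if_pos (Finset.mem_univ l)]
    rw [h1]
    ring

theorem jj_zero (P : Fin m → M) (F : MvPolynomial (Fin m) K) :
    JJ P (⇑(0 : Fin m →₀ ℕ)) F = MvPolynomial.aeval P F := by
  classical
  induction F using MvPolynomial.induction_on' with
  | add p q hp hq => rw [map_add, jj_add, hp, hq]
  | monomial n c =>
    rw [jj_mon, MvPolynomial.aeval_monomial]
    congr 1
    have h1 : ∏ i, ((n i : ℕ) : M) ^ (0 : Fin m →₀ ℕ) i = 1 :=
      Finset.prod_eq_one fun i _ => by rw [Finsupp.zero_apply, pow_zero]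
    rw [h1, one_mul, Finsupp.prod_fintype _ _ fun i => pow_zero _]

theorem jj_one (P : Fin m → M) (l : Fin m) (F : MvPolynomial (Fin m) K) :
    JJ P (Pi.single l 1) F = MvPolynomial.aeval P (MvPolynomial.X l * MvPolynomial.pderiv l F) := by
  rw [← jj_zero P, ← jj_D, zero_add, Finsupp.single_eq_pi_single]

/-- the linear form -/
noncomputable def lin (P : Fin m → M) (F : MvPolynomial (Fin m) K) : MvPolynomial (Fin m) M :=
  ∑ l, MvPolynomial.C (JJ P (Pi.single l 1) F) * MvPolynomial.X l

theorem pd_lin (P : Fin m → M) (F : MvPolynomial (Fin m) K) (l : Fin m) :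
    MvPolynomial.pderiv l (lin P F) = MvPolynomial.C (JJ P (Pi.single l 1) F) := by
  classical
  unfold lin
  rw [map_sum, Finset.sum_eq_single l]
  · rw [MvPolynomial.pderiv_C_mul, MvPolynomial.pderiv_X_self, mul_one]
  · intro j _ hj
    rw [MvPolynomial.pderiv_C_mul, MvPolynomial.pderiv_X_of_ne hj, mul_zero]
  · intro h
    exact absurd (Finset.mem_univ l) h

/-- the product of the factorials -/
noncomputable def fc (M : Type) [Field M] {m : ℕ} (κ : Fin m →₀ ℕ) : M :=
  ∏ i, ((κ i).factorial : M)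

theorem fc_add (κ : Fin m →₀ ℕ) (l : Fin m) :
    fc M (κ + Finsupp.single l 1) = fc M κ * ((κ l : M) + 1) := by
  classical
  unfold fc
  have h2 : ∀ i, (((κ + Finsupp.single l 1 : Fin m →₀ ℕ) i).factorial : M) =
      ((κ i).factorial : M) * (if i = l then ((κ i : M) + 1) else 1) := by
    intro i
    rw [Finsupp.add_apply]
    by_cases h : i = l
    · subst h
      rw [Finsupp.single_eq_same, if_pos rfl, Nat.factorial_succ]
      push_cast
      ring
    · rw [Finsupp.single_eq_of_ne h, if_neg h, add_zero, mul_one]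
  rw [Finset.prod_congr rfl fun i _ => h2 i, Finset.prod_mul_distrib, Finset.prod_ite_eq' _ l,
    if_pos (Finset.mem_univ l)]

theorem fc_coeff (κ : Fin m →₀ ℕ) (l : Fin m) (A : MvPolynomial (Fin m) M) :
    fc M (κ + Finsupp.single l 1) * A.coeff (κ + Finsupp.single l 1) =
      fc M κ * (MvPolynomial.pderiv l A).coeff κ := by
  rw [MvPolynomial.coeff_pderiv, fc_add]
  ring

/-- a step of the induction: vanishing -/
theorem stepA (P : Fin m → M) (κ : Fin m →₀ ℕ) (l : Fin m) (s : ℕ)
    (ih : ∀ (L : Multiset (MvPolynomial (Fin m) K)) (H : MvPolynomial (Fin m) K),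
      (∀ h ∈ L, MvPolynomial.aeval P h = 0) → s < Multiset.card L → JJ P (⇑κ) (L.prod * H) = 0)
    (H : MvPolynomial (Fin m) K) (L2 : Multiset (MvPolynomial (Fin m) K)) :
    ∀ L1 : Multiset (MvPolynomial (Fin m) K), (∀ h ∈ L1, MvPolynomial.aeval P h = 0) →
      (∀ h ∈ L2, MvPolynomial.aeval P h = 0) → s + 1 < Multiset.card L1 + Multiset.card L2 →
      JJ P (⇑κ) (L1.prod * (MvPolynomial.X l * MvPolynomial.pderiv l L2.prod) * H) = 0 := by
  induction L2 using Multiset.induction_on with
  | empty =>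
    intro L1 h1 _ hc
    rw [Multiset.prod_zero, MvPolynomial.pderiv_one, mul_zero, mul_zero, zero_mul]
    unfold JJ
    rw [MvPolynomial.support_zero, Finset.sum_empty]
  | cons h t iht =>
    intro L1 h1 h2 hc
    rw [Multiset.card_cons] at hc
    have e : L1.prod * (MvPolynomial.X l * MvPolynomial.pderiv l (h ::ₘ t).prod) * H =
        (h ::ₘ L1).prod * (MvPolynomial.X l * MvPolynomial.pderiv l t.prod) * H +
        (L1 + t).prod * (MvPolynomial.X l * MvPolynomial.pderiv l h * H) := by
      rw [Multiset.prod_cons, Multiset.prod_cons, Multiset.prod_add, MvPolynomial.pderiv_mul]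
      ring
    rw [e, jj_add, iht (h ::ₘ L1) ?_ ?_ ?_, ih (L1 + t) _ ?_ ?_, add_zero]
    · intro x hx
      rcases Multiset.mem_add.1 hx with hx | hx
      · exact h1 x hx
      · exact h2 x (Multiset.mem_cons_of_mem hx)
    · rw [Multiset.card_add]
      omega
    · intro x hx
      rcases Multiset.mem_cons.1 hx with hx | hx
      · rw [hx]
        exact h2 h (Multiset.mem_cons_self h t)
      · exact h1 x hx
    · exact fun x hx => h2 x (Multiset.mem_cons_of_mem hx)
    · rw [Multiset.card_cons]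
      omega

theorem claimA (P : Fin m → M) (s : ℕ) : ∀ (κ : Fin m →₀ ℕ), ∑ i, κ i = s →
    ∀ (L : Multiset (MvPolynomial (Fin m) K)) (H : MvPolynomial (Fin m) K),
      (∀ h ∈ L, MvPolynomial.aeval P h = 0) → s < Multiset.card L →
      JJ P (⇑κ) (L.prod * H) = 0 := by
  induction s with
  | zero =>
    intro κ hκ L H hL hc
    have hκ0 : κ = 0 := by
      ext i
      exact Finset.sum_eq_zero_iff.1 hκ i (Finset.mem_univ i)
    obtain ⟨h, hh⟩ := Multiset.card_pos_iff_exists_mem.1 hc
    obtain ⟨t, rfl⟩ := Multiset.exists_cons_of_mem hh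
    rw [hκ0, jj_zero, map_mul, Multiset.prod_cons, map_mul, hL h hh, zero_mul, zero_mul]
  | succ s ih =>
    intro κ hκ L H hL hc
    have h1 : ∃ l, κ l ≠ 0 := by
      by_contra hcon
      push Not at hcon
      rw [Finset.sum_eq_zero fun i _ => hcon i] at hκ
      omega
    obtain ⟨l, hl⟩ := h1
    obtain ⟨κ', rfl⟩ : ∃ κ' : Fin m →₀ ℕ, κ = κ' + Finsupp.single l 1 :=
      ⟨κ - Finsupp.single l 1, (tsub_add_cancel_of_le (Finsupp.single_le_iff.2
        (Nat.one_le_iff_ne_zero.2 hl))).symm⟩
    have hκ' : ∑ i, κ' i = s := by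
      rw [Finset.sum_congr rfl fun i _ => Finsupp.add_apply κ' _ i, Finset.sum_add_distrib] at hκ
      have h2 : ∑ i, (Finsupp.single l 1 : Fin m →₀ ℕ) i = 1 := by
        rw [Finset.sum_eq_single l (fun j _ hj => Finsupp.single_eq_of_ne hj)
          (fun h => absurd (Finset.mem_univ l) h), Finsupp.single_eq_same]
      omega
    have e : MvPolynomial.X l * MvPolynomial.pderiv l (L.prod * H) =
        (0 : Multiset (MvPolynomial (Fin m) K)).prod *
          (MvPolynomial.X l * MvPolynomial.pderiv l L.prod) * H +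
        L.prod * (MvPolynomial.X l * MvPolynomial.pderiv l H) := by
      rw [MvPolynomial.pderiv_mul, Multiset.prod_zero]
      ring
    rw [jj_D P κ' l (L.prod * H), e, jj_add, stepA P κ' l s (fun L H => ih κ' hκ' L H) H L 0
      (fun h hh => absurd hh (Multiset.notMem_zero h)) hL (by rw [Multiset.card_zero]; omega),
      ih κ' hκ' L _ hL (by omega), add_zero]

/-- a step of the induction: the leading term -/
theorem stepB (P : Fin m → M) (κ : Fin m →₀ ℕ) (l : Fin m) (s : ℕ)
    (ih : ∀ (L : Multiset (MvPolynomial (Fin m) K)) (H : MvPolynomial (Fin m) K),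
      (∀ h ∈ L, MvPolynomial.aeval P h = 0) → s = Multiset.card L → JJ P (⇑κ) (L.prod * H) =
        fc M κ * ((L.map (lin P)).prod).coeff κ * MvPolynomial.aeval P H)
    (H : MvPolynomial (Fin m) K) (L2 : Multiset (MvPolynomial (Fin m) K)) :
    ∀ L1 : Multiset (MvPolynomial (Fin m) K), (∀ h ∈ L1, MvPolynomial.aeval P h = 0) →
      (∀ h ∈ L2, MvPolynomial.aeval P h = 0) → s + 1 = Multiset.card L1 + Multiset.card L2 →
      JJ P (⇑κ) (L1.prod * (MvPolynomial.X l * MvPolynomial.pderiv l L2.prod) * H) =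
        fc M κ * ((L1.map (lin P)).prod * MvPolynomial.pderiv l (L2.map (lin P)).prod).coeff κ *
          MvPolynomial.aeval P H := by
  induction L2 using Multiset.induction_on with
  | empty =>
    intro L1 h1 _ hc
    rw [Multiset.prod_zero, MvPolynomial.pderiv_one, mul_zero, mul_zero, zero_mul,
      Multiset.map_zero, Multiset.prod_zero, MvPolynomial.pderiv_one, mul_zero,
      MvPolynomial.coeff_zero, mul_zero, zero_mul]
    unfold JJ
    rw [MvPolynomial.support_zero, Finset.sum_empty]
  | cons h t iht =>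
    intro L1 h1 h2 hc
    rw [Multiset.card_cons] at hc
    have e : L1.prod * (MvPolynomial.X l * MvPolynomial.pderiv l (h ::ₘ t).prod) * H =
        (h ::ₘ L1).prod * (MvPolynomial.X l * MvPolynomial.pderiv l t.prod) * H +
        (L1 + t).prod * (MvPolynomial.X l * MvPolynomial.pderiv l h * H) := by
      rw [Multiset.prod_cons, Multiset.prod_cons, Multiset.prod_add, MvPolynomial.pderiv_mul]
      ring
    have e2 : (L1.map (lin P)).prod * MvPolynomial.pderiv l ((h ::ₘ t).map (lin P)).prod =
        ((h ::ₘ L1).map (lin P)).prod * MvPolynomial.pderiv l (t.map (lin P)).prod +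
        MvPolynomial.C (JJ P (Pi.single l 1) h) * ((L1 + t).map (lin P)).prod := by
      rw [Multiset.map_cons, Multiset.map_cons, Multiset.prod_cons, Multiset.prod_cons,
        Multiset.map_add, Multiset.prod_add, MvPolynomial.pderiv_mul, pd_lin]
      ring
    rw [e, jj_add, iht (h ::ₘ L1) ?_ ?_ ?_, ih (L1 + t) _ ?_ ?_, e2, MvPolynomial.coeff_add,
      MvPolynomial.coeff_C_mul, jj_one, map_mul (MvPolynomial.aeval P) _ H]
    · ring
    · intro x hx
      rcases Multiset.mem_add.1 hx with hx | hx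
      · exact h1 x hx
      · exact h2 x (Multiset.mem_cons_of_mem hx)
    · rw [Multiset.card_add]
      omega
    · intro x hx
      rcases Multiset.mem_cons.1 hx with hx | hx
      · rw [hx]
        exact h2 h (Multiset.mem_cons_self h t)
      · exact h1 x hx
    · exact fun x hx => h2 x (Multiset.mem_cons_of_mem hx)
    · rw [Multiset.card_cons]
      omega

theorem claimB (P : Fin m → M) (s : ℕ) : ∀ (κ : Fin m →₀ ℕ), ∑ i, κ i = s →
    ∀ (L : Multiset (MvPolynomial (Fin m) K)) (H : MvPolynomial (Fin m) K),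
      (∀ h ∈ L, MvPolynomial.aeval P h = 0) → s = Multiset.card L →
      JJ P (⇑κ) (L.prod * H) =
        fc M κ * ((L.map (lin P)).prod).coeff κ * MvPolynomial.aeval P H := by
  induction s with
  | zero =>
    intro κ hκ L H hL hc
    have hκ0 : κ = 0 := by
      ext i
      exact Finset.sum_eq_zero_iff.1 hκ i (Finset.mem_univ i)
    have hL0 : L = 0 := Multiset.card_eq_zero.1 hc.symm
    rw [hκ0, hL0, jj_zero, Multiset.prod_zero, one_mul, Multiset.map_zero, Multiset.prod_zero,
      MvPolynomial.coeff_zero_one, mul_one]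
    have : fc M (0 : Fin m →₀ ℕ) = 1 := by
      unfold fc
      refine Finset.prod_eq_one fun i _ => ?_
      rw [Finsupp.zero_apply, Nat.factorial_zero, Nat.cast_one]
    rw [this, one_mul]
  | succ s ih =>
    intro κ hκ L H hL hc
    have h1 : ∃ l, κ l ≠ 0 := by
      by_contra hcon
      push Not at hcon
      rw [Finset.sum_eq_zero fun i _ => hcon i] at hκ
      omega
    obtain ⟨l, hl⟩ := h1
    obtain ⟨κ', rfl⟩ : ∃ κ' : Fin m →₀ ℕ, κ = κ' + Finsupp.single l 1 :=
      ⟨κ - Finsupp.single l 1, (tsub_add_cancel_of_le (Finsupp.single_le_iff.2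
        (Nat.one_le_iff_ne_zero.2 hl))).symm⟩
    have hκ' : ∑ i, κ' i = s := by
      rw [Finset.sum_congr rfl fun i _ => Finsupp.add_apply κ' _ i, Finset.sum_add_distrib] at hκ
      have h2 : ∑ i, (Finsupp.single l 1 : Fin m →₀ ℕ) i = 1 := by
        rw [Finset.sum_eq_single l (fun j _ hj => Finsupp.single_eq_of_ne hj)
          (fun h => absurd (Finset.mem_univ l) h), Finsupp.single_eq_same]
      omega
    have e : MvPolynomial.X l * MvPolynomial.pderiv l (L.prod * H) =
        (0 : Multiset (MvPolynomial (Fin m) K)).prod *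
          (MvPolynomial.X l * MvPolynomial.pderiv l L.prod) * H +
        L.prod * (MvPolynomial.X l * MvPolynomial.pderiv l H) := by
      rw [MvPolynomial.pderiv_mul, Multiset.prod_zero]
      ring
    rw [jj_D P κ' l (L.prod * H), e, jj_add, stepB P κ' l s (fun L H => ih κ' hκ' L H) H L 0
      (fun h hh => absurd hh (Multiset.notMem_zero h)) hL (by rw [Multiset.card_zero]; omega),
      claimA P s κ' hκ' L _ hL (by omega), add_zero, Multiset.map_zero, Multiset.prod_zero,
      one_mul, fc_coeff]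

theorem prod_eq {R : Type} [CommRing R] (h : Fin m → R) (e : Fin m → ℕ) :
    (∑ i, Multiset.replicate (e i) (h i)).prod = ∏ i, h i ^ e i := by
  rw [Multiset.prod_sum]
  exact Finset.prod_congr rfl fun i _ => Multiset.prod_replicate _ _

end Pool.Agent.H17.GG.LED

namespace Pool.Agent.H17.GG

open LED in
theorem pf_LED : T_LED := by
  intro K M _ _ _ _ m P h hP e κ H
  obtain ⟨κ', hκ'⟩ : ∃ κ' : Fin m →₀ ℕ, κ' = Finsupp.equivFunOnFinite.symm κ := ⟨_, rfl⟩
  have hκ : κ = ⇑κ' := by
    rw [hκ']
    rfl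
  obtain ⟨L, hL⟩ : ∃ L : Multiset (MvPolynomial (Fin m) K),
    L = ∑ i, Multiset.replicate (e i) (h i) := ⟨_, rfl⟩
  have hprod : L.prod = ∏ i, h i ^ e i := by rw [hL, prod_eq]
  have hcard : Multiset.card L = ∑ i, e i := by
    rw [hL, Multiset.card_sum]
    exact Finset.sum_congr rfl fun i _ => Multiset.card_replicate _ _
  have hmap : (L.map (lin P)).prod = ∏ i, (lin P (h i)) ^ e i := by
    have h1 : L.map (lin P) = ∑ i, Multiset.replicate (e i) (lin P (h i)) := by
      rw [hL, ← Multiset.coe_mapAddMonoidHom, map_sum]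
      refine Finset.sum_congr rfl fun i _ => ?_
      rw [Multiset.coe_mapAddMonoidHom, Multiset.map_replicate]
    rw [h1, prod_eq]
  have hLP : ∀ x ∈ L, MvPolynomial.aeval P x = 0 := by
    intro x hx
    rw [hL] at hx
    obtain ⟨i, -, hi⟩ := Multiset.mem_sum.1 hx
    rw [Multiset.eq_of_mem_replicate hi]
    exact hP i
  constructor
  · intro hlt
    rw [← hprod, hκ]
    rw [hκ] at hlt
    exact claimA P _ κ' rfl L H hLP (by rw [hcard]; exact hlt)
  · intro heq
    rw [← hprod]
    have h1 := claimB P _ κ' rfl L H hLP (by rw [hcard, ← heq, hκ])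
    rw [hmap] at h1
    rw [← hκ'] 
    rw [hκ]
    exact h1

end Pool.Agent.H17.GG
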