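import Pool.Agent.H64.GG.TB
import Pool.Agent.H68.RD.LVB

/-!
# UNF: a prime which does not divide the levels is good for the radicals
-/

set_option autoImplicit false

open NumberField Height Finset Polynomial Pool.Agent.H24.RD Pool.Agent.H23.RDD Pool.Agent.H29.RQ
  Pool.Agent.H29.SX Pool.Agent.H29.LG Pool.Agent.H64.GG

namespace Pool.Agent.H17.GG

theorem unf_cop (w : FinitePlace ℚ) (p : ℕ) (hp : p.Prime) (hw : w.1 (p : ℚ) < 1) (n : ℕ)
    (hn : ¬ p ∣ n) : w.1 (n : ℚ) = 1 := by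
  have hna : IsNonarchimedean w.1 := fun x y => w.add_le x y
  have hint : ∀ z : ℤ, w.1 (z : ℚ) ≤ 1 := fun z => hna.apply_intCast_le_one
  have hle : w.1 (n : ℚ) ≤ 1 := by
    have := hint (n : ℤ)
    rwa [Int.cast_natCast] at this
  refine le_antisymm hle ?_
  by_contra hcon
  have hcon' : w.1 (n : ℚ) < 1 := lt_of_not_ge hcon
  have hc : Nat.Coprime p n := (Nat.Prime.coprime_iff_not_dvd hp).2 hn
  obtain ⟨u, v, huv⟩ := (Nat.isCoprime_iff_coprime.2 hc : IsCoprime (p : ℤ) (n : ℤ))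
  have h1 : (u : ℚ) * (p : ℚ) + (v : ℚ) * (n : ℚ) = 1 := by exact_mod_cast huv
  have h2 : w.1 ((u : ℚ) * (p : ℚ) + (v : ℚ) * (n : ℚ)) ≤
      max (w.1 ((u : ℚ) * (p : ℚ))) (w.1 ((v : ℚ) * (n : ℚ))) := hna _ _
  rw [h1, map_one, map_mul, map_mul] at h2
  have hu := hint u
  have hv := hint v
  have hp0 : 0 ≤ w.1 (p : ℚ) := w.1.nonneg _
  have hn0 : 0 ≤ w.1 (n : ℚ) := w.1.nonneg _
  have h3 : max (w.1 (u : ℚ) * w.1 (p : ℚ)) (w.1 (v : ℚ) * w.1 (n : ℚ)) < 1 := by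
    refine max_lt ?_ ?_
    · nlinarith
    · nlinarith
  linarith

theorem unf_nat (w : FinitePlace ℚ) (p : ℕ) (hp : p.Prime) (hw : w.1 (p : ℚ) < 1) (n : ℕ)
    (hn : n ≠ 0) : w.1 (n : ℚ) = w.1 (p : ℚ) ^ (padicValNat p n) := by
  have : Fact p.Prime := ⟨hp⟩
  obtain ⟨e, n', hn', rfl⟩ := Nat.exists_eq_pow_mul_and_not_dvd hn p hp.ne_one
  have hn0 : n' ≠ 0 := by
    rintro rfl
    exact hn' (dvd_zero p)
  rw [padicValNat.mul (pow_ne_zero _ hp.ne_zero) hn0, padicValNat.prime_pow,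
    padicValNat.eq_zero_of_not_dvd hn', add_zero, Nat.cast_mul, Nat.cast_pow, map_mul, map_pow,
    unf_cop w p hp hw n' hn', mul_one]

theorem unf_rat (w : FinitePlace ℚ) (p : ℕ) (hp : p.Prime) (hw : w.1 (p : ℚ) < 1) (x : ℚ)
    (hx : x ≠ 0) : w.1 x = w.1 (p : ℚ) ^ (padicValRat p x) := by
  have hp0 : w.1 (p : ℚ) ≠ 0 := by
    rw [Ne, w.1.eq_zero]
    exact_mod_cast hp.ne_zero
  have h1 : w.1 x = w.1 (x.num : ℚ) / w.1 (x.den : ℚ) := by
    rw [← map_div₀, Rat.num_div_den]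
  have h2 : w.1 (x.num : ℚ) = w.1 ((x.num.natAbs : ℕ) : ℚ) := by
    rcases Int.natAbs_eq x.num with h | h
    · conv_lhs => rw [h]
      rw [Int.cast_natCast]
    · conv_lhs => rw [h]
      rw [Int.cast_neg, Int.cast_natCast, AbsoluteValue.map_neg]
  have hnum : x.num.natAbs ≠ 0 := by
    rw [Ne, Int.natAbs_eq_zero]
    exact Rat.num_ne_zero.2 hx
  rw [h1, h2, unf_nat w p hp hw _ hnum, unf_nat w p hp hw _ x.den_nz]
  have h3 : padicValRat p x = (padicValNat p x.num.natAbs : ℤ) - (padicValNat p x.den : ℤ) := rfl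
  rw [h3, zpow_sub₀ hp0, zpow_natCast, zpow_natCast]

theorem pf_UNF (hUNK : Pool.Agent.H29.LG.T_UNK) (hRS : Pool.Agent.H23.RDD.T_RS)
    (hEXTP : Pool.Agent.H29.LG.T_EXTP) : T_UNF := by
  intro r a N hgood F _ γ hγ hF p hp hpN hpa
  have hAlg : Algebra.IsAlgebraic ℚ Om := AlgebraicClosure.isAlgebraic ℚ
  have hn0 : 0 < ∏ i, N i := Finset.prod_pos fun i _ => hgood.pos i
  obtain ⟨n, hn⟩ : ∃ n : ℕ, n = ∏ i, N i := ⟨_, rfl⟩
  rw [← hn] at hpN hn0
  have hgP : GoodP ℚ a p := by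
    refine ⟨hp, fun w hw => ⟨fun x hx => ⟨_, unf_rat w p hp hw x hx⟩, fun i => ?_⟩⟩
    rw [unf_rat w p hp hw _ (hgood.nz i), hpa i, zpow_zero]
  obtain ⟨hfd, -, -, -, -, -⟩ := Pool.Agent.H68.RD.pf_LVB ℚ Om r a hgood.nz n n hn0 hn0
  have hnf : NumberField (Lv ℚ Om a n n) := NumberField.of_module_finite ℚ _
  have hFL : F ≤ Lv ℚ Om a n n := by
    rw [hF]
    unfold FT
    rw [IntermediateField.adjoin_le_iff]
    rintro _ ⟨i, rfl⟩
    change (γ i : Om) ∈ Lv ℚ Om a n n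
    obtain ⟨t, ht⟩ := IsAlgClosed.exists_pow_nat_eq (algebraMap ℚ Om (a i)) hn0
    have ha0 : algebraMap ℚ Om (a i) ≠ 0 := by
      rw [Ne, map_eq_zero]
      exact hgood.nz i
    have ht0 : t ≠ 0 := by
      rintro rfl
      rw [zero_pow hn0.ne'] at ht
      exact ha0 ht.symm
    have htL : t ∈ Lv ℚ Om a n n := IntermediateField.subset_adjoin ℚ _ (Or.inr ⟨i, ht⟩)
    obtain ⟨m, hm⟩ : N i ∣ n := by
      rw [hn]
      exact Finset.dvd_prod_of_mem N (Finset.mem_univ i)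
    have h1 : (t ^ m) ^ N i = (γ i : Om) ^ N i := by
      rw [← pow_mul, mul_comm m, ← hm, ht, hγ]
    have h2 : ((γ i : Om) / t ^ m) ^ n = 1 := by
      rw [hm, pow_mul, div_pow, ← h1, div_self (pow_ne_zero _ (pow_ne_zero _ ht0)), one_pow]
    have h3 : (γ i : Om) / t ^ m ∈ Lv ℚ Om a n n :=
      IntermediateField.subset_adjoin ℚ _ (Or.inl h2)
    have h4 : (γ i : Om) = (γ i : Om) / t ^ m * t ^ m :=
      (div_mul_cancel₀ _ (pow_ne_zero _ ht0)).symm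
    rw [h4]
    exact mul_mem h3 (pow_mem htL _)
  refine ⟨hp, fun w hw => ?_⟩
  have hwp0 : 0 < w.1 (p : F) := by
    refine w.1.pos ?_
    exact_mod_cast hp.ne_zero
  constructor
  · intro x hx
    let _ : Algebra F (Lv ℚ Om a n n) :=
      (IntermediateField.inclusion hFL).toRingHom.toAlgebra
    obtain ⟨w', k, hk, hw'⟩ := hEXTP F (Lv ℚ Om a n n) w
    have hpm : w'.1 (p : Lv ℚ Om a n n) = w.1 (p : F) ^ k := by
      rw [← hw', map_natCast (algebraMap F (Lv ℚ Om a n n))]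
    have hw'1 : w'.1 (p : Lv ℚ Om a n n) < 1 := by
      rw [hpm]
      exact Real.rpow_lt_one hwp0.le hw hk
    have hx' : algebraMap F (Lv ℚ Om a n n) x ≠ 0 := by
      rw [Ne, map_eq_zero]
      exact hx
    obtain ⟨e, he⟩ := hUNK ℚ Om r a hgood.nz p hgP n n hn0 dvd_rfl hpN (Lv ℚ Om a n n) le_rfl w'
      hw'1 (algebraMap F (Lv ℚ Om a n n) x) (algebraMap F (Lv ℚ Om a n n) x).2 hx'
    refine ⟨e, ?_⟩
    rw [hw', hpm, ← Real.rpow_intCast, ← Real.rpow_mul hwp0.le, mul_comm, Real.rpow_mul hwp0.le,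
      Real.rpow_intCast] at he
    have hx0 : 0 ≤ w.1 x := w.1.nonneg _
    have hz0 : 0 ≤ w.1 (p : F) ^ e := (zpow_pos hwp0 e).le
    exact (Real.rpow_left_inj hx0 hz0 hk.ne').1 he
  · intro i
    obtain ⟨v, k, hk, hv⟩ := hRS ℚ F w
    have hvp : v.1 (p : ℚ) < 1 := by
      by_contra hcon
      have h1 : w.1 (p : F) = v.1 (p : ℚ) ^ k := by
        rw [← hv, map_natCast (algebraMap ℚ F)]
      rw [h1] at hw
      exact absurd hw (not_lt.2 (Real.one_le_rpow (not_lt.1 hcon) hk.le))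
    have h1 : w.1 (algebraMap ℚ F (a i)) = 1 := by
      rw [hv, (hgP.2 v hvp).2 i, Real.one_rpow]
    have h2 : (γ i) ^ N i = algebraMap ℚ F (a i) := by
      apply Subtype.ext
      have := hγ i
      rw [SubmonoidClass.coe_pow, this]
      rfl
    rw [← h2, map_pow] at h1
    exact (pow_eq_one_iff_of_nonneg (w.1.nonneg _) (hgood.pos i).ne').1 h1

end Pool.Agent.H17.GG
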